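import Pool.Agent.H93.CUBE.LStmts

/-! Cube project, block LIMIT: module FN1 (horizontal functionals with logarithms). -/

set_option autoImplicit false

open Polynomial Pool.CM

namespace Pool.H93.Cube

theorem FN1.step {K : Type} [Field K] {m : Type} [Fintype m]
    (g : Matrix m m (LaurentSeries K)) (δ : ℕ → m → LaurentSeries K)
    (hδ : ∀ j b, nab (δ j b) + ((j : K) + 1) • δ (j + 1) b = ∑ a, δ j a * g a b) (j : ℕ) :
    op (-g.transpose) (δ j) = (-((j : K) + 1)) • δ (j + 1) := by
  funext b
  rw [op_apply, Pi.smul_apply, neg_smul, eq_neg_iff_add_eq_zero, add_right_comm, hδ j b,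
    ← Finset.sum_add_distrib]
  refine Finset.sum_eq_zero fun a _ => ?_
  rw [Matrix.neg_apply, Matrix.transpose_apply]
  ring

theorem FN1.pow {K : Type} [Field K] {m : Type} [Fintype m]
    (g : Matrix m m (LaurentSeries K)) (δ : ℕ → m → LaurentSeries K)
    (hδ : ∀ j b, nab (δ j b) + ((j : K) + 1) • δ (j + 1) b = ∑ a, δ j a * g a b) (k : ℕ) :
    ∀ j, ∃ c : K, ((op (-g.transpose)) ^ k) (δ j) = c • δ (j + k) := by
  induction k with
  | zero => exact fun j => ⟨1, by simp⟩
  | succ k ih =>
    intro j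
    obtain ⟨c, hc⟩ := ih (j + 1)
    refine ⟨-((j : K) + 1) * c, ?_⟩
    rw [pow_succ, Module.End.mul_apply, FN1.step g δ hδ j, map_smul, hc, smul_smul]
    congr 2
    ring

theorem FN1_thm : FN1Stmt := by
  intro E _ m _ _ G u _ _ d K _ κ q δ hq hδ
  have hG : (G.map ((cmapR κ).comp (ex E))) = Matrix.of fun a b => cmapR κ (ex E (G a b)) := by
    ext1 a b
    rfl
  have hδ' : ∀ j b, nab (δ j b) + ((j : K) + 1) • δ (j + 1) b =
      ∑ a, δ j a * (G.map ((cmapR κ).comp (ex E))) a b := hδ
  have hx : ∀ j, ∃ x : u → K, ∀ a, δ j a = ∑ b, cmapR κ (d.Z' a b) * HahnSeries.C (x b) := by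
    intro j
    refine d.compl' K κ q (δ j) ?_
    obtain ⟨c, hc⟩ := FN1.pow _ δ hδ' q j
    rw [hc, hq _ (Nat.le_add_left q j), smul_zero]
  choose x hx using hx
  -- duality
  have hZZ : ∀ b c : u, ∑ a, cmapR κ (d.Z' a b) * cmapR κ (d.Z a c) =
      if b = c then (1 : LaurentSeries K) else 0 := by
    intro b c
    have h := congrFun (congrFun d.ZZ b) c
    rw [Matrix.mul_apply] at h
    simp only [Matrix.transpose_apply] at h
    have h2 := congrArg (cmapR κ) h
    rw [map_sum] at h2
    simp only [map_mul] at h2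
    rw [h2, Matrix.one_apply]
    split_ifs
    · exact map_one _
    · exact map_zero _
  have hpair : ∀ j b, ∑ a, δ j a * cmapR κ (d.Z a b) = HahnSeries.C (x j b) := by
    intro j b
    calc ∑ a, δ j a * cmapR κ (d.Z a b)
        = ∑ a, ∑ c, HahnSeries.C (x j c) * (cmapR κ (d.Z' a c) * cmapR κ (d.Z a b)) := by
          refine Finset.sum_congr rfl fun a _ => ?_
          rw [hx j a, Finset.sum_mul]
          exact Finset.sum_congr rfl fun c _ => by ring
      _ = ∑ c, HahnSeries.C (x j c) * (if c = b then (1 : LaurentSeries K) else 0) := by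
          rw [Finset.sum_comm]
          refine Finset.sum_congr rfl fun c _ => ?_
          rw [← Finset.mul_sum, hZZ]
      _ = HahnSeries.C (x j b) := by
          simp
  have hCinj : Function.Injective (HahnSeries.C : K →+* LaurentSeries K) :=
    HahnSeries.C_injective
  refine ⟨x, ?_, hx, ?_, hpair⟩
  · intro j hj
    funext b
    apply hCinj
    rw [← hpair j b, hq j hj]
    simp
  · intro j
    funext b
    apply hCinj
    -- horizontality of Z
    have hZ : ∀ c, cmapR κ (nab (d.Z c b)) + ∑ a, cmapR κ (ex E (G c a)) * cmapR κ (d.Z a b) =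
        ∑ b', cmapR κ (d.Z c b') * HahnSeries.C (κ (d.N b' b)) := by
      intro c
      have h := congrFun (congrFun d.hZ c) b
      rw [Matrix.add_apply, Matrix.mul_apply, Matrix.mul_apply] at h
      have h2 := congrArg (cmapR κ) h
      rw [map_add, map_sum, map_sum] at h2
      simp only [map_mul, Matrix.map_apply, cmapR_C] at h2
      exact h2
    have hnab : ∑ a, nab (δ j a) * cmapR κ (d.Z a b) +
        ∑ a, δ j a * cmapR κ (nab (d.Z a b)) = 0 := by
      have h := congrArg nab (hpair j b)
      rw [nab_C, map_sum] at h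
      simp only [nab_mul, nab_cmapR, Finset.sum_add_distrib] at h
      exact h
    have h1 : ∑ a, (((j : K) + 1) • δ (j + 1) a) * cmapR κ (d.Z a b) =
        HahnSeries.C (((j : K) + 1) * x (j + 1) b) := by
      rw [map_mul, ← hpair (j + 1) b, Finset.mul_sum]
      refine Finset.sum_congr rfl fun a _ => ?_
      rw [← HahnSeries.C_mul_eq_smul]
      ring
    rw [Pi.smul_apply, smul_eq_mul, ← h1]
    have h2 : ∀ a, ((j : K) + 1) • δ (j + 1) a =
        (∑ c, δ j c * cmapR κ (ex E (G c a))) - nab (δ j a) := by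
      intro a
      rw [← hδ j a]
      ring
    have h3 : ∑ a, (((j : K) + 1) • δ (j + 1) a) * cmapR κ (d.Z a b) =
        ∑ c, δ j c * (∑ a, cmapR κ (ex E (G c a)) * cmapR κ (d.Z a b)) -
          ∑ a, nab (δ j a) * cmapR κ (d.Z a b) := by
      simp only [h2, sub_mul, Finset.sum_sub_distrib, Finset.sum_mul, Finset.mul_sum]
      congr 1
      rw [Finset.sum_comm]
      exact Finset.sum_congr rfl fun a _ => Finset.sum_congr rfl fun c _ => by ring
    have h4 : ∑ c, δ j c * (∑ a, cmapR κ (ex E (G c a)) * cmapR κ (d.Z a b)) =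
        ∑ b', HahnSeries.C (x j b') * HahnSeries.C (κ (d.N b' b)) -
          ∑ c, δ j c * cmapR κ (nab (d.Z c b)) := by
      rw [eq_sub_iff_add_eq, ← Finset.sum_add_distrib]
      calc ∑ c, (δ j c * (∑ a, cmapR κ (ex E (G c a)) * cmapR κ (d.Z a b)) +
            δ j c * cmapR κ (nab (d.Z c b)))
          = ∑ c, ∑ b', (δ j c * cmapR κ (d.Z c b')) * HahnSeries.C (κ (d.N b' b)) := by
            refine Finset.sum_congr rfl fun c _ => ?_
            rw [← mul_add, add_comm, hZ c, Finset.mul_sum]
            exact Finset.sum_congr rfl fun b' _ => by ring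
        _ = ∑ b', (∑ c, δ j c * cmapR κ (d.Z c b')) * HahnSeries.C (κ (d.N b' b)) := by
            rw [Finset.sum_comm]
            exact Finset.sum_congr rfl fun b' _ => by rw [Finset.sum_mul]
        _ = _ := Finset.sum_congr rfl fun b' _ => by rw [hpair j b']
    rw [h3, h4, Matrix.vecMul, dotProduct, map_sum]
    have h5 : ∑ i, (HahnSeries.C (x j i * (d.N.map κ) i b) : LaurentSeries K) =
        ∑ b', HahnSeries.C (x j b') * HahnSeries.C (κ (d.N b' b)) :=
      Finset.sum_congr rfl fun b' _ => by rw [map_mul]; rfl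
    rw [h5]
    have h6 := hnab
    linear_combination h6

end Pool.H93.Cube
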