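import Pool.Agent.H93.CUBE.LStmts
import Pool.Agent.H10.CM.All
import Pool.Agent.H34.CUBE.L_EXF
import Pool.Agent.H53.CUBE.L_EXG

/-! Cube project, block LIMIT: module TR2 (limit of one Frobenius matrix, arbitrary limit data). -/

set_option autoImplicit false

open Polynomial Pool.CM

namespace Pool.H93.Cube

namespace TR2

/-- finitely many fixed elements have bounded degree -/
theorem tfx_fin {X : Idx} {E : Type} [Field E] {A : PF X E} (hA : A.Ax) {ι : Type} [Finite ι]
    (f : ι → E) : ∃ d : ℕ, X.Ev fun i => ∀ a, f a ∈ A.t i d := by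
  classical
  cases nonempty_fintype ι
  choose d hd using fun a => Pool.CM.All.tfx X E A hA (f a)
  refine ⟨Finset.univ.sup d, Idx.Ev.all fun a => (hd a).mono fun i hi => ?_⟩
  exact (Pool.CM.All.tcl X E A hA i).2.1 _ _ (Finset.le_sup (Finset.mem_univ a)) hi

theorem t_sum {X : Idx} {E : Type} [Field E] {A : PF X E} (hA : A.Ax) (i : X.I) {ι : Type}
    (s : Finset ι) (f : ι → E) (d : ℕ) (h : ∀ a ∈ s, f a ∈ A.t i d) :
    ∑ a ∈ s, f a ∈ A.t i (s.card * d) := by
  classical
  induction s using Finset.induction_on with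
  | empty =>
    rw [Finset.sum_empty, Finset.card_empty, zero_mul]
    exact (Pool.CM.All.tcl X E A hA i).2.2.2.2.2.2.2 _ _ (zero_mem _)
  | insert a s ha ih =>
    rw [Finset.sum_insert ha, Finset.card_insert_of_notMem ha]
    have h1 := (Pool.CM.All.tcl X E A hA i).2.2.1 _ _ _ _ (h a (Finset.mem_insert_self a s))
      (ih fun b hb => h b (Finset.mem_insert_of_mem hb))
    have h2 : (s.card + 1) * d = d + s.card * d := by ring
    rw [h2]
    exact h1

theorem t_mul {X : Idx} {E : Type} [Field E] {A : PF X E} (hA : A.Ax) (i : X.I)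
    {m m' m'' : Type} [Fintype m'] {d e : ℕ} {P : Matrix m m' E} {Q : Matrix m' m'' E}
    (hP : ∀ a b, P a b ∈ A.t i d) (hQ : ∀ a b, Q a b ∈ A.t i e) :
    ∀ a b, (P * Q) a b ∈ A.t i (Fintype.card m' * (d + e)) := by
  intro a b
  rw [Matrix.mul_apply]
  exact t_sum hA i _ _ _ fun c _ => (Pool.CM.All.tcl X E A hA i).2.2.2.1 _ _ _ _ (hP a c) (hQ c b)

theorem inv_map {F : Type} [Field F] (D : Derivation ℤ F F) {m m' : Type} [Fintype m]
    [DecidableEq m] [Fintype m'] [DecidableEq m'] {H : Matrix m m' F} {H' : Matrix m' m F}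
    (h : Inv2 H H') : H'.map D = -(H' * H.map D * H') := by
  have h1 := mapD_mul D H' H
  rw [h.1] at h1
  have h2 : (1 : Matrix m' m' F).map D = 0 := by
    ext1 a b
    rw [Matrix.map_apply, Matrix.one_apply]
    split_ifs
    · exact D.map_one_eq_zero
    · exact map_zero _
  rw [h2] at h1
  have h3 : H'.map D * H = -(H' * H.map D) := by
    rw [eq_neg_iff_add_eq_zero]
    exact h1.symm
  calc H'.map D = H'.map D * (H * H') := by rw [h.2, Matrix.mul_one]
    _ = (H'.map D * H) * H' := by rw [Matrix.mul_assoc]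
    _ = _ := by rw [h3, Matrix.neg_mul]

theorem inv_nab {E : Type} [Field E] {m m' : Type} [Fintype m]
    [DecidableEq m] [Fintype m'] [DecidableEq m'] {H : Matrix m m' (LaurentSeries E)}
    {H' : Matrix m' m (LaurentSeries E)}
    (h : Inv2 H H') : H'.map nab = -(H' * H.map nab * H') := by
  have h1 := mapNab_mul H' H
  rw [h.1] at h1
  have h2 : (1 : Matrix m' m' (LaurentSeries E)).map nab = 0 := by
    ext1 a b
    rw [Matrix.map_apply, Matrix.one_apply]
    split_ifs
    · exact nab_one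
    · exact map_zero _
  rw [h2] at h1
  have h3 : H'.map nab * H = -(H' * H.map nab) := by
    rw [eq_neg_iff_add_eq_zero]
    exact h1.symm
  calc H'.map nab = H'.map nab * (H * H') := by rw [h.2, Matrix.mul_one]
    _ = (H'.map nab * H) * H' := by rw [Matrix.mul_assoc]
    _ = _ := by rw [h3, Matrix.neg_mul]

/-- gauge transform of a Frobenius equation -/
theorem gauge {F : Type} [Field F] (D : Derivation ℤ F F) (φ : F →+* F) (p : F)
    (hD : ∀ x, D (φ x) = p * φ (D x)) {m m' : Type} [Fintype m]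
    [DecidableEq m] [Fintype m'] [DecidableEq m'] {H : Matrix m m' F} {H' : Matrix m' m F}
    (h : Inv2 H H') (G P : Matrix m m F) :
    (H' * P * H.map φ).map D + gau D H H' G * (H' * P * H.map φ) -
      p • ((H' * P * H.map φ) * (gau D H H' G).map φ) =
    H' * (P.map D + G * P - p • (P * G.map φ)) * H.map φ := by
  have h1 : (H.map φ).map D = p • (H.map D).map φ := by
    ext1 a b
    exact hD _
  have h2 : H.map φ * H'.map φ = 1 := (h.map φ).2
  have h3 : (gau D H H' G).map φ = H'.map φ * (H.map D).map φ + H'.map φ * G.map φ * H.map φ := by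
    rw [gau, Matrix.map_add _ (map_add φ), Matrix.map_mul, Matrix.map_mul, Matrix.map_mul]
  have h4 : (H' * P * H.map φ) * (gau D H H' G).map φ =
      H' * P * (H.map D).map φ + H' * P * G.map φ * H.map φ := by
    rw [h3, Matrix.mul_add]
    congr 1
    · rw [Matrix.mul_assoc, ← Matrix.mul_assoc (H.map φ), h2, Matrix.one_mul]
    · rw [Matrix.mul_assoc (H' * P), Matrix.mul_assoc (H'.map φ), ← Matrix.mul_assoc (H.map φ),
        h2, Matrix.one_mul, Matrix.mul_assoc (H' * P)]
  have h5 : gau D H H' G * (H' * P * H.map φ) =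
      H' * H.map D * H' * P * H.map φ + H' * G * P * H.map φ := by
    rw [gau, Matrix.add_mul]
    congr 1
    · simp only [Matrix.mul_assoc]
    · simp only [Matrix.mul_assoc]
      rw [← Matrix.mul_assoc H H', h.2, Matrix.one_mul]
  rw [h4, h5, mapD_mul, mapD_mul, inv_map D h, h1]
  simp only [Matrix.mul_add, Matrix.add_mul, Matrix.mul_sub, Matrix.sub_mul, Matrix.neg_mul,
    Matrix.mul_smul, Matrix.smul_mul, smul_add, Matrix.mul_assoc]
  abel

end TR2

theorem TR2_thm (h1 : TRNStmt) (h2 : NFLStmt) (h3 : GHPStmt) (h4 : HNFStmt) : TR2Stmt := by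
  intro X E _ A hA m _ _ G n hHP u _ _ d
  classical
  have hAe : A.ext.Ax := Pool.CM.All.ext X E A hA
  have hN := h4 X E A hA m G n hHP
  obtain ⟨w, iw, dw, H, H', Bn, hI, hNF, hYr, hY0, -, -⟩ := h2 X E A hA m G n hN u d
  have hG1 := h3 X E A hA m (u ⊕ w) G H H' hI n hHP
  have hIe : Inv2 (H.map (ex E)) (H'.map (ex E)) := hI.map (ex E)
  have hYh : (H'.map (ex E) * d.Z).map nab + (gau (nabF E) H H' G).map (ex E) *
      (H'.map (ex E) * d.Z) = (H'.map (ex E) * d.Z) * cM d.N := by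
    rw [EXG_thm E m (u ⊕ w) H H' G, mapNab_mul, TR2.inv_nab hIe, Matrix.mul_assoc _ d.Z,
      ← d.hZ, Matrix.add_mul, Matrix.mul_add]
    have h5 : H'.map (ex E) * G.map (ex E) * H.map (ex E) * (H'.map (ex E) * d.Z) =
        H'.map (ex E) * (G.map (ex E) * d.Z) := by
      rw [Matrix.mul_assoc, ← Matrix.mul_assoc (H.map (ex E)), hIe.2, Matrix.one_mul,
        Matrix.mul_assoc]
    rw [h5, Matrix.neg_mul]
    simp only [Matrix.mul_assoc]
    abel
  obtain ⟨c, hc⟩ := h1 X E A hA u w (gau (nabF E) H H' G) d.N Bn hNF n hG1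
    (H'.map (ex E) * d.Z) hYr hY0 hYh
  refine ⟨c, fun M C1 I => ?_⟩
  obtain ⟨a, ha, hH⟩ := exists_bound_fin (fun x : m × (u ⊕ w) => ex E (H x.1 x.2))
  obtain ⟨d1, hd1⟩ := TR2.tfx_fin hAe (fun x : (u ⊕ w) × m => H' x.1 x.2)
  obtain ⟨d2, hd2⟩ := TR2.tfx_fin hAe (fun x : m × (u ⊕ w) => H x.1 x.2)
  obtain ⟨C2, hC2⟩ := hc M (Fintype.card m * (Fintype.card m * (d1 + C1) + d2)) (I + (-a).toNat)
  refine ⟨C2, ?_⟩
  refine ((hC2.and hd1).and hd2).mono fun i hi Phi hPhi hCong => ?_
  obtain ⟨⟨hi, e1⟩, e2⟩ := hi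
  have hp1 : 1 ≤ X.p i := (X.hp i).one_lt.le
  have tcl := Pool.CM.All.tcl X (RatFunc E) A.ext hAe i
  have hHφ : ∀ b c, (H.map (A.ext.phi i)) b c ∈ A.ext.t i (X.p i * d2) := fun b c =>
    tcl.2.2.2.2.2.1 _ _ (e2 (b, c))
  have ht : ∀ b c, (H' * Phi * H.map (A.ext.phi i)) b c ∈
      A.ext.t i (Fintype.card m * (Fintype.card m * (d1 + C1) + d2) * X.p i) := by
    intro b c
    have h5 := TR2.t_mul hAe i (TR2.t_mul hAe i (fun b c => e1 (b, c)) hPhi) hHφ b c
    refine tcl.2.1 _ _ ?_ h5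
    have h6 : d1 ≤ d1 * X.p i := Nat.le_mul_of_pos_right _ hp1
    calc Fintype.card m * (Fintype.card m * (d1 + C1 * X.p i) + X.p i * d2)
        ≤ Fintype.card m * (Fintype.card m * (d1 * X.p i + C1 * X.p i) + X.p i * d2) := by
          refine Nat.mul_le_mul_left _ (Nat.add_le_add_right (Nat.mul_le_mul_left _ ?_) _)
          omega
      _ = _ := by ring
  have hgauge := TR2.gauge (nabF E) (A.ext.phi i) (X.p i : RatFunc E)
    (fun x => hAe.D_phi i none x) hI G Phi
  have hCong1 : Cong (A.ext.O i) (X.p i) (M + c)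
      ((H' * Phi * H.map (A.ext.phi i)).map (nabF E) +
        gau (nabF E) H H' G * (H' * Phi * H.map (A.ext.phi i)))
      ((X.p i : RatFunc E) • ((H' * Phi * H.map (A.ext.phi i)) *
        (gau (nabF E) H H' G).map (A.ext.phi i))) := by
    intro b c'
    rw [← Matrix.sub_apply, hgauge, Matrix.mul_apply]
    refine sum_mem fun e _ => pI_mul_right ?_ (tcl.1 _ _ (hHφ e c'))
    rw [Matrix.mul_apply]
    refine sum_mem fun f _ => pI_mul_left (tcl.1 _ _ (e1 (b, f))) ?_
    rw [Matrix.sub_apply]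
    exact hCong f e
  obtain ⟨PhiH, hP1, hP2⟩ := hi (H' * Phi * H.map (A.ext.phi i)) ht hCong1
  refine ⟨PhiH, hP1, ?_⟩
  set q := phiL (A.phi i) (X.p i) (X.hp i).ne_zero with hq
  have hHe : (H.map (A.ext.phi i)).map (ex E) = (H.map (ex E)).map q := by
    ext1 b c'
    exact EXF_thm X E A i _
  have key1 : Phi.map (ex E) * d.Z.map q = H.map (ex E) *
      ((H' * Phi * H.map (A.ext.phi i)).map (ex E) * (H'.map (ex E) * d.Z).map q) := by
    rw [Matrix.map_mul, Matrix.map_mul, Matrix.map_mul, hHe]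
    have h5 : (H.map (ex E)).map q * (H'.map (ex E)).map q = 1 := (hIe.map q).2
    have h6 : (H'.map (ex E) * Phi.map (ex E) * (H.map (ex E)).map q) *
        ((H'.map (ex E)).map q * d.Z.map q) = H'.map (ex E) * (Phi.map (ex E) * d.Z.map q) := by
      rw [Matrix.mul_assoc, ← Matrix.mul_assoc ((H.map (ex E)).map q), h5, Matrix.one_mul,
        Matrix.mul_assoc]
    rw [h6, ← Matrix.mul_assoc (H.map (ex E)), hIe.2, Matrix.one_mul]
  have key2 : d.Z * cM PhiH = H.map (ex E) * ((H'.map (ex E) * d.Z) * cM PhiH) := by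
    rw [← Matrix.mul_assoc, ← Matrix.mul_assoc, hIe.2, Matrix.one_mul]
  have hcast : (((I + (-a).toNat : ℕ) : ℕ) : ℤ) = I - a := by
    push_cast
    rw [Int.toNat_of_nonneg (by omega)]
    ring
  rw [hcast] at hP2
  have e2' : ∀ b c', ex E (H b c') ∈ IL (A.O i) := fun b c' =>
    (Pool.CM.All.xt X E A hA i _ _ (e2 (b, c'))).1
  rw [key1, key2]
  intro b c' k hk
  rw [← HahnSeries.coeff_sub, ← Matrix.sub_apply, ← Matrix.mul_sub, Matrix.mul_apply,
    HahnSeries.coeff_sum]
  refine sum_mem fun e _ => ?_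
  obtain ⟨b0, hb0⟩ := exists_bound (((H' * Phi * H.map (A.ext.phi i)).map (ex E) *
    (H'.map (ex E) * d.Z).map q - H'.map (ex E) * d.Z * cM PhiH) e c')
  have hb1 : ∀ k < a, ((H.map (ex E)) b e).coeff k = 0 := fun k hk => hH (b, e) k hk
  rw [coeff_mul_Icc hb1 hb0]
  refine sum_mem fun j hj => pI_mul_left (e2' b e j) ?_
  rw [Finset.mem_Icc] at hj
  rw [Matrix.sub_apply, HahnSeries.coeff_sub]
  exact hP2 e c' _ (by omega)

end Pool.H93.Cube
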