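import Pool.Agent.H93.CUBE.LStmts
import Pool.Agent.H10.CM.All

/-! Cube project, block LIMIT: module TRM (the relation `Φ'ᵀ Φ = p ^ n` passes to the limit). -/

set_option autoImplicit false

open Polynomial Pool.CM

namespace Pool.H93.Cube

namespace TRM
section one
variable {E : Type} [Field E]

/-- truncation above order `L` -/
noncomputable def tr (L : ℤ) (f : LaurentSeries E) : LaurentSeries E where
  coeff k := if k ≤ L then f.coeff k else 0
  isPWO_support' := f.isPWO_support'.mono (by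
    intro k hk
    rw [Function.mem_support] at hk ⊢
    intro h
    apply hk
    rw [h, ite_self])

theorem tr_coeff (L : ℤ) (f : LaurentSeries E) (k : ℤ) :
    (tr L f).coeff k = if k ≤ L then f.coeff k else 0 := rfl

theorem coeff_mul_lt {f g : LaurentSeries E} {a b : ℤ} (hf : ∀ k < a, f.coeff k = 0)
    (hg : ∀ k < b, g.coeff k = 0) (k : ℤ) (hk : k < a + b) : (f * g).coeff k = 0 := by
  rw [coeff_mul_Icc hf hg, Finset.Icc_eq_empty (by omega), Finset.sum_empty]

theorem tr_mul_coeff_zero {f g : LaurentSeries E} {a L : ℤ} (hf : ∀ k < a, f.coeff k = 0)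
    (hg : ∀ k < a, g.coeff k = 0) (hL : -a ≤ L) :
    (tr L f * tr L g).coeff 0 = (f * g).coeff 0 := by
  have h1 : ∀ k < a, (tr L f).coeff k = 0 := fun k hk => by rw [tr_coeff, hf k hk, ite_self]
  have h2 : ∀ k < a, (tr L g).coeff k = 0 := fun k hk => by rw [tr_coeff, hg k hk, ite_self]
  rw [coeff_mul_Icc h1 h2, coeff_mul_Icc hf hg]
  refine Finset.sum_congr rfl fun j hj => ?_
  rw [Finset.mem_Icc] at hj
  rw [tr_coeff, tr_coeff, if_pos (by omega), if_pos (by omega)]

/-- comparison of constant terms of products -/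
theorem cA {O : Subring E} {p M : ℕ} {x x' w w' : LaurentSeries E} {a : ℤ} (ha : a ≤ 0)
    (hx : x ∈ IL O) (hx' : x' ∈ IL O) (hw : ∀ k < a, w.coeff k = 0)
    (hw' : ∀ k < a, w'.coeff k = 0) (h : ∀ k ≤ -a, x.coeff k - w.coeff k ∈ pI O p M)
    (h' : ∀ k ≤ -a, x'.coeff k - w'.coeff k ∈ pI O p M) :
    (x' * x).coeff 0 - (w' * w).coeff 0 ∈ pI O p M := by
  obtain ⟨b1, hb1⟩ := exists_bound x
  obtain ⟨b2, hb2⟩ := exists_bound x'
  set b := min a (min b1 b2) with hb
  have e1 : ∀ k < b, x.coeff k = 0 := fun k hk => hb1 k (by omega)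
  have e2 : ∀ k < b, x'.coeff k = 0 := fun k hk => hb2 k (by omega)
  have e3 : ∀ k < b, w.coeff k = 0 := fun k hk => hw k (by omega)
  have e4 : ∀ k < b, w'.coeff k = 0 := fun k hk => hw' k (by omega)
  rw [coeff_mul_Icc e2 e1, coeff_mul_Icc e4 e3, ← Finset.sum_sub_distrib]
  refine sum_mem fun j _ => ?_
  by_cases h1 : -a < j
  · have h2 := h (0 - j) (by omega)
    rw [hw (0 - j) (by omega), sub_zero] at h2
    rw [hw (0 - j) (by omega), mul_zero, sub_zero]
    exact pI_mul_left (hx' j) h2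
  · by_cases h2 : j < a
    · have h3 := h' j (by omega)
      rw [hw' j h2, sub_zero] at h3
      rw [hw' j h2, zero_mul, sub_zero]
      exact pI_mul_right h3 (hx (0 - j))
    · have h3 := h (0 - j) (by omega)
      have h4 := h' j (by omega)
      have h5 : w'.coeff j ∈ O := by
        have := O.sub_mem (hx' j) (pI_sub_O h4)
        rwa [sub_sub_cancel] at this
      have h6 := add_mem (pI_mul_right h4 (hx (0 - j))) (pI_mul_left h5 h3)
      have h7 : (x'.coeff j - w'.coeff j) * x.coeff (0 - j) +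
          w'.coeff j * (x.coeff (0 - j) - w.coeff (0 - j)) =
          x'.coeff j * x.coeff (0 - j) - w'.coeff j * w.coeff (0 - j) := by ring
      rwa [h7] at h6

theorem mul_IL {O : Subring E} {m m' m'' : Type} [Fintype m'] {x : Matrix m m' (LaurentSeries E)}
    {y : Matrix m' m'' (LaurentSeries E)} (hx : MInt O x) (hy : MInt O y) : MInt O (x * y) := by
  intro a b
  rw [Matrix.mul_apply]
  exact sum_mem fun c _ => (IL O).mul_mem (hx a c) (hy c b)

theorem mul_pL {O : Subring E} {p M : ℕ} {m m' m'' : Type} [Fintype m']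
    {x : Matrix m m' (LaurentSeries E)} {y : Matrix m' m'' (LaurentSeries E)} (hx : MInt O x)
    (hy : ∀ a b, y a b ∈ pL O p M) : ∀ a b, (x * y) a b ∈ pL O p M := by
  intro a b
  rw [Matrix.mul_apply]
  exact sum_mem fun c _ => pL_mul_left (hx a c) (hy c b)

theorem pL_mul' {O : Subring E} {p M : ℕ} {m m' m'' : Type} [Fintype m']
    {x : Matrix m m' (LaurentSeries E)} {y : Matrix m' m'' (LaurentSeries E)}
    (hx : ∀ a b, x a b ∈ pL O p M) (hy : MInt O y) : ∀ a b, (x * y) a b ∈ pL O p M := by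
  intro a b
  rw [Matrix.mul_apply]
  exact sum_mem fun c _ => pL_mul_right (hx a c) (hy c b)

/-- elements of some `t i d` form a subring -/
def tS {X : Idx} (A : PF X E) (hA : A.ext.Ax) (i : X.I) : Subring (RatFunc E) where
  carrier := {x | ∃ d, x ∈ A.ext.t i d}
  mul_mem' := by
    rintro x y ⟨d, hx⟩ ⟨e, hy⟩
    exact ⟨_, (Pool.CM.All.tcl X (RatFunc E) A.ext hA i).2.2.2.1 _ _ _ _ hx hy⟩
  one_mem' := ⟨0, (Pool.CM.All.tcl X (RatFunc E) A.ext hA i).2.2.2.2.2.2.2 _ _ (hA.pol_one i)⟩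
  add_mem' := by
    rintro x y ⟨d, hx⟩ ⟨e, hy⟩
    exact ⟨_, (Pool.CM.All.tcl X (RatFunc E) A.ext hA i).2.2.1 _ _ _ _ hx hy⟩
  zero_mem' := ⟨0, (Pool.CM.All.tcl X (RatFunc E) A.ext hA i).2.2.2.2.2.2.2 _ _ (zero_mem _)⟩
  neg_mem' := by
    rintro x ⟨d, hx⟩
    exact ⟨_, (Pool.CM.All.tcl X (RatFunc E) A.ext hA i).2.2.2.2.1 _ _ hx⟩

/-- a fixed element is integral at almost all places -/
theorem ev_mem {X : Idx} {A : PF X E} (hA : A.Ax) (x : E) : X.Ev fun i => x ∈ A.O i := by
  by_cases hx : x = 0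
  · subst hx
    exact Idx.Ev.of_forall fun i => (A.O i).zero_mem
  · exact (hA.pf2 x hx).mono fun i hi => hi.2.1

/-- one place: the vector `Φ φ(T)` with `T` the truncation -/
theorem place {O : Subring E} {p M : ℕ} (hp : p ≠ 0) {φ : E →+* E} (hφ : ∀ x ∈ O, φ x ∈ O)
    {m u : Type} [Fintype m] [Fintype u] {a : ℤ} (ha : a ≤ 0) (C1 : ℕ)
    (Z : Matrix m u (LaurentSeries E))
    (hT : MInt O (Z.map (tr (-a + C1)))) (P : Matrix m m (LaurentSeries E)) (hP : MInt O P)
    (hP' : ∀ b c, ∀ k < -((C1 * p : ℕ) : ℤ), (P b c).coeff k = 0) (PH : Matrix u u E)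
    (hc : CongT O p M (-a + 1) (P * Z.map (phiL φ p hp)) (Z * cM PH)) :
    MInt O (P * (Z.map (tr (-a + C1))).map (phiL φ p hp)) ∧
    ∀ b c, ∀ k ≤ -a, ((P * (Z.map (tr (-a + C1))).map (phiL φ p hp)) b c).coeff k -
      ((Z * cM PH) b c).coeff k ∈ pI O p M := by
  refine ⟨mul_IL hP fun b c => phiL_mem_IL hφ p hp (hT b c), fun b c k hk => ?_⟩
  have h1 : ((P * (Z.map (tr (-a + C1))).map (phiL φ p hp)) b c).coeff k =
      ((P * Z.map (phiL φ p hp)) b c).coeff k := by
    rw [Matrix.mul_apply, Matrix.mul_apply, HahnSeries.coeff_sum, HahnSeries.coeff_sum]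
    refine Finset.sum_congr rfl fun e _ => ?_
    rw [← sub_eq_zero, ← HahnSeries.coeff_sub, ← mul_sub]
    have hb : ∀ k < (p : ℤ) * (-a + C1 + 1), ((Z.map (tr (-a + C1))).map (phiL φ p hp) e c -
        (Z.map (phiL φ p hp)) e c).coeff k = 0 := by
      intro k hk
      rw [Matrix.map_apply, Matrix.map_apply, Matrix.map_apply, ← map_sub]
      by_cases hd : (p : ℤ) ∣ k
      · obtain ⟨l, rfl⟩ := hd
        rw [phiL_coeff_mul, HahnSeries.coeff_sub, tr_coeff]
        have hpos : (0 : ℤ) < p := by exact_mod_cast Nat.pos_of_ne_zero hp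
        have hl : l < -a + C1 + 1 := lt_of_mul_lt_mul_left hk hpos.le
        rw [if_pos (by omega), sub_self, map_zero]
      · exact phiL_coeff_not _ _ _ _ _ hd
    refine coeff_mul_lt (hP' b e) hb k ?_
    have hpos : (1 : ℤ) ≤ p := by exact_mod_cast Nat.pos_of_ne_zero hp
    have h2 : (1 : ℤ) * (-a + 1) ≤ (p : ℤ) * (-a + 1) :=
      mul_le_mul_of_nonneg_right hpos (by omega)
    have h3 : -((C1 * p : ℕ) : ℤ) + (p : ℤ) * (-a + C1 + 1) = (p : ℤ) * (-a + 1) := by
      push_cast; ring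
    rw [h3]
    omega
  rw [h1]
  exact hc b c k (by omega)

end one
end TRM

theorem TRM_thm (_ : EXFStmt) : TRMStmt := by
  intro X E _ A hA m _ _ G u _ _ d
  classical
  have hAe : A.ext.Ax := Pool.CM.All.ext X E A hA
  obtain ⟨z1, hz1, hZ1⟩ := exists_bound_fin (fun x : m × u => d.Z x.1 x.2)
  obtain ⟨z2, hz2, hZ2⟩ := exists_bound_fin (fun x : m × u => d.Z' x.1 x.2)
  obtain ⟨a, hadef⟩ : ∃ a : ℤ, a = min z1 z2 := ⟨_, rfl⟩
  have ha : a ≤ 0 := by omega
  have hZ : ∀ b c, ∀ k < a, (d.Z b c).coeff k = 0 := fun b c k hk => hZ1 (b, c) k (by omega)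
  have hZ' : ∀ b c, ∀ k < a, (d.Z' b c).coeff k = 0 := fun b c k hk => hZ2 (b, c) k (by omega)
  refine ⟨(-a + 1).toNat, fun n M C1 => ?_⟩
  have hI : (((-a + 1).toNat : ℕ) : ℤ) = -a + 1 := Int.toNat_of_nonneg (by omega)
  rw [hI]
  have hev : X.Ev fun i => ∀ x : m × u, ∀ j ∈ Finset.Icc a (-a + C1),
      (d.Z x.1 x.2).coeff j ∈ A.O i :=
    Idx.Ev.all fun x => Idx.Ev.allFinset _ fun j _ => TRM.ev_mem hA _
  have hev' : X.Ev fun i => ∀ x : m × u, ∀ j ∈ Finset.Icc a (-a + C1),
      (d.Z' x.1 x.2).coeff j ∈ A.O i :=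
    Idx.Ev.all fun x => Idx.Ev.allFinset _ fun j _ => TRM.ev_mem hA _
  refine (hev.and hev').mono fun i hi Phi Phi' ht ht' hC PH PH' _ _ hc hc' => ?_
  obtain ⟨hi1, hi2⟩ := hi
  have hpn : X.p i ≠ 0 := (X.hp i).ne_zero
  have hφ : ∀ x ∈ A.O i, A.phi i x ∈ A.O i := fun x hx => hA.phi_O i x hx
  have hT : MInt (A.O i) (d.Z.map (TRM.tr (-a + C1))) := by
    intro b c k
    rw [Matrix.map_apply, TRM.tr_coeff]
    split_ifs with hk
    · by_cases h : a ≤ k
      · exact hi1 (b, c) k (Finset.mem_Icc.2 ⟨h, hk⟩)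
      · rw [hZ b c k (by omega)]
        exact (A.O i).zero_mem
    · exact (A.O i).zero_mem
  have hT' : MInt (A.O i) (d.Z'.map (TRM.tr (-a + C1))) := by
    intro b c k
    rw [Matrix.map_apply, TRM.tr_coeff]
    split_ifs with hk
    · by_cases h : a ≤ k
      · exact hi2 (b, c) k (Finset.mem_Icc.2 ⟨h, hk⟩)
      · rw [hZ' b c k (by omega)]
        exact (A.O i).zero_mem
    · exact (A.O i).zero_mem
  have hP : MInt (A.O i) (Phi.map (ex E)) :=
    fun b c => (Pool.CM.All.xt X E A hA i _ _ (ht b c)).1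
  have hP' : MInt (A.O i) (Phi'.map (ex E)) :=
    fun b c => (Pool.CM.All.xt X E A hA i _ _ (ht' b c)).1
  obtain ⟨f1, f2⟩ := TRM.place hpn hφ ha C1 d.Z hT (Phi.map (ex E)) hP
    (fun b c => (Pool.CM.All.xt X E A hA i _ _ (ht b c)).2) PH hc
  obtain ⟨g1, g2⟩ := TRM.place hpn hφ ha C1 d.Z' hT' (Phi'.map (ex E)) hP'
    (fun b c => (Pool.CM.All.xt X E A hA i _ _ (ht' b c)).2) PH' hc'
  set T := d.Z.map (TRM.tr (-a + C1)) with hTd
  set T' := d.Z'.map (TRM.tr (-a + C1)) with hTd'
  set XT := Phi.map (ex E) * T.map (phiL (A.phi i) (X.p i) hpn) with hXT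
  set XT' := Phi'.map (ex E) * T'.map (phiL (A.phi i) (X.p i) hpn) with hXT'
  -- the congruence in Laurent series
  have hD : ∀ b c, ((Phi'.map (ex E)).transpose * Phi.map (ex E) -
      (HahnSeries.C ((X.p i : E) ^ n) : LaurentSeries E) • (1 : Matrix m m (LaurentSeries E))) b c ∈
        pL (A.O i) (X.p i) M := by
    intro b c
    have h2 := hC b c
    have h3 : (Phi'.transpose * Phi) b c - ((X.p i : RatFunc E) ^ n • (1 : Matrix m m (RatFunc E))) b c ∈
        TRM.tS A hAe i := by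
      refine sub_mem ?_ ?_
      · rw [Matrix.mul_apply]
        exact sum_mem fun e _ => mul_mem ⟨_, ht' e b⟩ ⟨_, ht e c⟩
      · rw [Matrix.smul_apply, Matrix.one_apply, smul_eq_mul]
        refine mul_mem (pow_mem (natCast_mem _ _) _) ?_
        split_ifs
        · exact one_mem _
        · exact zero_mem _
    obtain ⟨d0, hd0⟩ := h3
    have h4 := (Pool.CM.All.xcg X E A hA i d0 _ M hd0).1 h2
    have h5 : ex E ((Phi'.transpose * Phi) b c -
        ((X.p i : RatFunc E) ^ n • (1 : Matrix m m (RatFunc E))) b c) =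
        ((Phi'.map (ex E)).transpose * Phi.map (ex E) -
      (HahnSeries.C ((X.p i : E) ^ n) : LaurentSeries E) • (1 : Matrix m m (LaurentSeries E))) b c := by
      rw [map_sub, Matrix.sub_apply, Matrix.mul_apply, Matrix.mul_apply, map_sum,
        Matrix.smul_apply, Matrix.smul_apply, smul_eq_mul, smul_eq_mul, map_mul, map_pow,
        map_natCast, map_pow, map_natCast]
      congr 1
      · exact Finset.sum_congr rfl fun e _ => by rw [map_mul]; rfl
      · congr 1
        rw [Matrix.one_apply, Matrix.one_apply]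
        split_ifs
        · exact map_one _
        · exact map_zero _
    rw [h5] at h4
    exact h4
  -- the product of the truncations
  have hTT : ∀ b c, ((T'.transpose * T) b c).coeff 0 = if b = c then (1 : E) else 0 := by
    intro b c
    have h2 := congrArg (fun f => HahnSeries.coeff f 0) (congrFun (congrFun d.ZZ b) c)
    simp only [Matrix.mul_apply, HahnSeries.coeff_sum, Matrix.transpose_apply] at h2
    rw [Matrix.mul_apply, HahnSeries.coeff_sum]
    have h3 : ∀ e, (T'.transpose b e * T e c).coeff 0 = (d.Z' e b * d.Z e c).coeff 0 := fun e =>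
      TRM.tr_mul_coeff_zero (hZ' e b) (hZ e c) (by omega)
    rw [Finset.sum_congr rfl fun e _ => h3 e, h2, Matrix.one_apply]
    split_ifs
    · simp
    · simp
  have hB : ∀ b c, ((XT'.transpose * XT) b c).coeff 0 -
      ((X.p i : E) ^ n • (1 : Matrix u u E)) b c ∈ pI (A.O i) (X.p i) M := by
    intro b c
    have h2 : XT'.transpose * XT = (T'.map (phiL (A.phi i) (X.p i) hpn)).transpose *
        ((Phi'.map (ex E)).transpose * Phi.map (ex E) -
          (HahnSeries.C ((X.p i : E) ^ n) : LaurentSeries E) • (1 : Matrix m m (LaurentSeries E))) *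
        T.map (phiL (A.phi i) (X.p i) hpn) + (HahnSeries.C ((X.p i : E) ^ n) : LaurentSeries E) •
        ((T'.transpose * T).map (phiL (A.phi i) (X.p i) hpn)) := by
      rw [hXT, hXT', Matrix.transpose_mul, Matrix.mul_sub, Matrix.sub_mul, Matrix.map_mul,
        Matrix.transpose_map, Matrix.mul_smul, Matrix.smul_mul, Matrix.mul_one]
      simp only [Matrix.mul_assoc]
      abel
    have h3 := TRM.pL_mul' (TRM.mul_pL (x := (T'.map (phiL (A.phi i) (X.p i) hpn)).transpose)
      (fun e f => phiL_mem_IL hφ _ hpn (hT' f e)) hD)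
      (fun e f => phiL_mem_IL hφ _ hpn (hT e f) : MInt (A.O i)
        (T.map (phiL (A.phi i) (X.p i) hpn))) b c 0
    rw [h2, Matrix.add_apply, HahnSeries.coeff_add, Matrix.smul_apply (α := LaurentSeries E),
      Matrix.map_apply, smul_eq_mul, HahnSeries.C_mul_eq_smul, HahnSeries.coeff_smul]
    have h4 : (phiL (A.phi i) (X.p i) hpn ((T'.transpose * T) b c)).coeff 0 =
        if b = c then (1 : E) else 0 := by
      have := phiL_coeff_mul (A.phi i) (X.p i) hpn ((T'.transpose * T) b c) 0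
      rw [mul_zero] at this
      rw [this, hTT]
      split_ifs
      · exact map_one _
      · exact map_zero _
    rw [h4, Matrix.smul_apply, Matrix.one_apply, add_sub_cancel_right]
    exact h3
  have hW : ∀ (Q : Matrix m u (LaurentSeries E)), (∀ b c, ∀ k < a, (Q b c).coeff k = 0) →
      ∀ (P : Matrix u u E) b c, ∀ k < a, ((Q * cM P) b c).coeff k = 0 := by
    intro Q hQ P b c k hk
    rw [Matrix.mul_apply, HahnSeries.coeff_sum]
    refine Finset.sum_eq_zero fun e _ => ?_
    have h0 : cM P e c = HahnSeries.C (P e c) := rfl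
    rw [h0, mul_comm, HahnSeries.C_mul_eq_smul, HahnSeries.coeff_smul, hQ b e k hk, smul_zero]
  have hWW : (d.Z' * cM PH').transpose * (d.Z * cM PH) = cM (PH'.transpose * PH) := by
    rw [Matrix.transpose_mul, Matrix.mul_assoc, ← Matrix.mul_assoc d.Z'.transpose, d.ZZ,
      Matrix.one_mul, cM_mul]
    rfl
  intro b c
  have h2 : ((XT'.transpose * XT) b c).coeff 0 - (PH'.transpose * PH) b c ∈
      pI (A.O i) (X.p i) M := by
    have h3 : (PH'.transpose * PH) b c =
        (((d.Z' * cM PH').transpose * (d.Z * cM PH)) b c).coeff 0 := by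
      rw [hWW]
      have h0 : cM (PH'.transpose * PH) b c = HahnSeries.C ((PH'.transpose * PH) b c) := rfl
      rw [h0, HahnSeries.C_apply, HahnSeries.coeff_single_same]
    rw [h3, Matrix.mul_apply, Matrix.mul_apply, HahnSeries.coeff_sum, HahnSeries.coeff_sum,
      ← Finset.sum_sub_distrib]
    refine sum_mem fun e _ => ?_
    exact TRM.cA ha (f1 e c) (g1 e b) (hW d.Z hZ PH e c) (hW d.Z' hZ' PH' e b) (f2 e c) (g2 e b)
  have h3 := sub_mem (hB b c) h2
  have h4 : ((XT'.transpose * XT) b c).coeff 0 - ((X.p i : E) ^ n • (1 : Matrix u u E)) b c -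
      (((XT'.transpose * XT) b c).coeff 0 - (PH'.transpose * PH) b c) =
      (PH'.transpose * PH) b c - ((X.p i : E) ^ n • (1 : Matrix u u E)) b c := by ring
  rwa [h4] at h3

end Pool.H93.Cube
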