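import Pool.Agent.H38.CUBE.JJStmts2
import Pool.Agent.H22.CUBE.RHB

/-! MP_47888e_al, block JJ part 2, module MPP: from `E[τ][λ][σ]` to `E(τ)(σ)(λ)`. -/

set_option autoImplicit false

open Polynomial

namespace Pool.CUBE

open Pool.CM Pool.H93.Cube

namespace F_MPP

variable {E : Type} [Field E]

theorem ext_phi_C {X : Idx} (A : PF X E) (i : X.I) (x : E) :
    A.ext.phi i (RatFunc.C x) = RatFunc.C (A.phi i x) := by
  have h := phiR_algebraMap (A.phi i) (X.p i) (X.hp i).pos (Polynomial.C x)
  have h1 : phiP (A.phi i) (X.p i) (Polynomial.C x) = Polynomial.C (A.phi i x) := by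
    rw [phiP_apply, Polynomial.map_C, Polynomial.expand_C]
  rw [h1, RatFunc.algebraMap_C, RatFunc.algebraMap_C] at h
  exact h

theorem ext_phi_X {X : Idx} (A : PF X E) (i : X.I) :
    A.ext.phi i RatFunc.X = RatFunc.X ^ X.p i := by
  have h := phiR_algebraMap (A.phi i) (X.p i) (X.hp i).pos Polynomial.X
  have h1 : phiP (A.phi i) (X.p i) Polynomial.X = Polynomial.X ^ X.p i := by
    rw [phiP_apply, Polynomial.map_X, Polynomial.expand_X]
  rw [h1, map_pow, RatFunc.algebraMap_X] at h
  exact h

/-- the inclusion of polynomials in rational functions in two variables -/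
noncomputable def j2 (E : Type) [Field E] : Polynomial (Polynomial E) →+* RatFunc (RatFunc E) :=
  (algebraMap (Polynomial (RatFunc E)) (RatFunc (RatFunc E))).comp
    (Polynomial.mapRingHom (algebraMap E[X] (RatFunc E)))

theorem j2_injective : Function.Injective (j2 E) := by
  unfold j2
  rw [RingHom.coe_comp]
  exact (RatFunc.algebraMap_injective _).comp
    (Polynomial.map_injective _ (RatFunc.algebraMap_injective _))

/-- the inclusion of polynomials in three variables, after the swap of `λ` and `σ` -/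
noncomputable def j3 (E : Type) [Field E] : B3 E →+* F3 E :=
  ((algebraMap (Polynomial (RatFunc (RatFunc E))) (F3 E)).comp
    (Polynomial.mapRingHom (j2 E))).comp
      ((Polynomial.Bivariate.swap (R := E[X])).toRingEquiv.toRingHom)

theorem j3_injective : Function.Injective (j3 E) := by
  unfold j3
  rw [RingHom.coe_comp, RingHom.coe_comp]
  refine ((RatFunc.algebraMap_injective _).comp
    (Polynomial.map_injective _ j2_injective)).comp ?_
  exact (Polynomial.Bivariate.swap (R := E[X])).injective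

theorem kB3_C_C_C (e : E) : kB3 E (Polynomial.C (Polynomial.C (Polynomial.C e))) =
    Corner.cF E e := by
  simp [kB3, kB2]

theorem kB3_tau : kB3 E (Polynomial.C (Polynomial.C Polynomial.X)) = Corner.tauF E := by
  simp [kB3, kB2]

theorem kB3_lam : kB3 E (Polynomial.C Polynomial.X) = Corner.lamF E := by
  simp [kB3, kB2]

theorem kB3_sig : kB3 E Polynomial.X = Corner.sigF E := by
  simp [kB3]

theorem kB3_cB3 (e : E) : kB3 E (cB3 E e) = Corner.cF E e := kB3_C_C_C e

theorem j3_eq : j3 E = kB3 E := by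
  refine Polynomial.ringHom_ext' (Polynomial.ringHom_ext' (Polynomial.ringHom_ext' ?_ ?_) ?_) ?_
  · ext e
    change j3 E (Polynomial.C (Polynomial.C (Polynomial.C e))) =
      kB3 E (Polynomial.C (Polynomial.C (Polynomial.C e)))
    rw [kB3_C_C_C]
    change algebraMap (Polynomial (RatFunc (RatFunc E))) (F3 E) ((Polynomial.map (j2 E))
      (Polynomial.Bivariate.swap (Polynomial.C (Polynomial.C (Polynomial.C e))))) = _
    rw [Polynomial.Bivariate.swap_C_C, Polynomial.map_C, RatFunc.algebraMap_C]
    unfold j2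
    rw [RingHom.comp_apply, Polynomial.coe_mapRingHom, Polynomial.map_C, RatFunc.algebraMap_C,
      RatFunc.algebraMap_C]
    rfl
  · change j3 E (Polynomial.C (Polynomial.C Polynomial.X)) =
      kB3 E (Polynomial.C (Polynomial.C Polynomial.X))
    rw [kB3_tau]
    change algebraMap (Polynomial (RatFunc (RatFunc E))) (F3 E) ((Polynomial.map (j2 E))
      (Polynomial.Bivariate.swap (Polynomial.C (Polynomial.C Polynomial.X)))) = _
    rw [Polynomial.Bivariate.swap_C_C, Polynomial.map_C, RatFunc.algebraMap_C]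
    unfold j2
    rw [RingHom.comp_apply, Polynomial.coe_mapRingHom, Polynomial.map_C, RatFunc.algebraMap_C,
      RatFunc.algebraMap_X]
    rfl
  · change j3 E (Polynomial.C Polynomial.X) = kB3 E (Polynomial.C Polynomial.X)
    rw [kB3_lam]
    change algebraMap (Polynomial (RatFunc (RatFunc E))) (F3 E) ((Polynomial.map (j2 E))
      (Polynomial.Bivariate.swap (Polynomial.C Polynomial.X))) = _
    rw [Polynomial.Bivariate.swap_X, Polynomial.map_X, RatFunc.algebraMap_X]
    rfl
  · change j3 E Polynomial.X = kB3 E Polynomial.X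
    rw [kB3_sig]
    change algebraMap (Polynomial (RatFunc (RatFunc E))) (F3 E) ((Polynomial.map (j2 E))
      (Polynomial.Bivariate.swap Polynomial.X)) = _
    rw [Polynomial.Bivariate.swap_Y, Polynomial.map_C, RatFunc.algebraMap_C]
    unfold j2
    rw [RingHom.comp_apply, Polynomial.coe_mapRingHom, Polynomial.map_X, RatFunc.algebraMap_X]
    rfl

theorem phi_kB3 {X : Idx} (A : PF X E) (i : X.I) :
    (A.ext.ext.ext.phi i).comp (kB3 E) = (kB3 E).comp (phB3 (A.phi i) (X.p i)) := by
  have hph : ∀ y : B2 E, phB3 (A.phi i) (X.p i) (Polynomial.C y) =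
      Polynomial.C (phB2 (A.phi i) (X.p i) y) := by
    intro y
    change Polynomial.expand (B2 E) (X.p i) ((Polynomial.C y).map (phB2 (A.phi i) (X.p i))) = _
    rw [Polynomial.map_C, Polynomial.expand_C]
  have hph2 : ∀ y : E[X], phB2 (A.phi i) (X.p i) (Polynomial.C y) =
      Polynomial.C (phiP (A.phi i) (X.p i) y) := by
    intro y
    change Polynomial.expand E[X] (X.p i) ((Polynomial.C y).map (phiP (A.phi i) (X.p i))) = _
    rw [Polynomial.map_C, Polynomial.expand_C]
  refine Polynomial.ringHom_ext' (Polynomial.ringHom_ext' (Polynomial.ringHom_ext' ?_ ?_) ?_) ?_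
  · ext e
    change A.ext.ext.ext.phi i (kB3 E (Polynomial.C (Polynomial.C (Polynomial.C e)))) =
      kB3 E (phB3 (A.phi i) (X.p i) (Polynomial.C (Polynomial.C (Polynomial.C e))))
    rw [kB3_C_C_C, hph, hph2, phiP_apply, Polynomial.map_C, Polynomial.expand_C, kB3_C_C_C]
    change A.ext.ext.ext.phi i (RatFunc.C (RatFunc.C (RatFunc.C e))) =
      RatFunc.C (RatFunc.C (RatFunc.C (A.phi i e)))
    rw [ext_phi_C, ext_phi_C, ext_phi_C]
  · change A.ext.ext.ext.phi i (kB3 E (Polynomial.C (Polynomial.C Polynomial.X))) =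
      kB3 E (phB3 (A.phi i) (X.p i) (Polynomial.C (Polynomial.C Polynomial.X)))
    rw [kB3_tau, hph, hph2, phiP_apply, Polynomial.map_X, Polynomial.expand_X, map_pow, map_pow,
      map_pow, kB3_tau]
    change A.ext.ext.ext.phi i (RatFunc.C (RatFunc.C (RatFunc.X : RatFunc E))) =
      RatFunc.C (RatFunc.C (RatFunc.X : RatFunc E)) ^ X.p i
    rw [ext_phi_C, ext_phi_C, ext_phi_X, map_pow, map_pow]
  · change A.ext.ext.ext.phi i (kB3 E (Polynomial.C Polynomial.X)) =
      kB3 E (phB3 (A.phi i) (X.p i) (Polynomial.C Polynomial.X))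
    have h1 : phB2 (A.phi i) (X.p i) Polynomial.X = Polynomial.X ^ X.p i := by
      change Polynomial.expand E[X] (X.p i) (Polynomial.X.map (phiP (A.phi i) (X.p i))) = _
      rw [Polynomial.map_X, Polynomial.expand_X]
    rw [kB3_lam, hph, h1, map_pow, map_pow, kB3_lam]
    exact ext_phi_X A.ext.ext i
  · change A.ext.ext.ext.phi i (kB3 E Polynomial.X) =
      kB3 E (phB3 (A.phi i) (X.p i) Polynomial.X)
    have h1 : phB3 (A.phi i) (X.p i) Polynomial.X = Polynomial.X ^ X.p i := by
      change Polynomial.expand (B2 E) (X.p i) (Polynomial.X.map (phB2 (A.phi i) (X.p i))) = _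
      rw [Polynomial.map_X, Polynomial.expand_X]
    rw [kB3_sig, h1, map_pow, kB3_sig]
    change A.ext.ext.ext.phi i (RatFunc.C (RatFunc.X : RatFunc (RatFunc E))) =
      RatFunc.C (RatFunc.X : RatFunc (RatFunc E)) ^ X.p i
    rw [ext_phi_C, ext_phi_X, map_pow]

theorem map_P3 {n : ℕ} (K : Corner n E) : MvPolynomial.map (kB3 E) K.P3 = K.P := by
  have hk2 : (kB3 E).comp (Polynomial.C (R := B2 E)) = kB2 E := by
    refine RingHom.ext fun y => ?_
    simp [kB3]
  have hX1 : MvPolynomial.map (kB2 E) K.X1 =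
      ∑ k ∈ Finset.range ((1 + K.w).natDegree + 1),
        MvPolynomial.C (Corner.tauF E ^ k) * MvPolynomial.map (Corner.cF E) (K.G k) -
      MvPolynomial.C (Corner.lamF E) * ∑ i, MvPolynomial.X i ^ K.D := by
    unfold Corner.X1
    rw [map_sub, map_sum, map_mul, MvPolynomial.map_C]
    congr 1
    · refine Finset.sum_congr rfl fun k _ => ?_
      rw [map_mul, MvPolynomial.map_C, MvPolynomial.map_map]
      congr 2
      · have h0 : kB2 E (Polynomial.C Polynomial.X) = Corner.tauF E := by
          simp [kB2]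
        rw [Polynomial.C_pow, map_pow, h0]
      · congr 1
        refine RingHom.ext fun e => ?_
        simp [kB2]
    · congr 1
      · simp [kB2]
      · simp [Corner.fer]
  unfold Corner.P3
  rw [map_sub, map_mul, map_pow, MvPolynomial.map_C, kB3_sig, MvPolynomial.map_map, hk2, hX1]
  have hSg : MvPolynomial.map (kB3 E) (Sg n (B3 E)) = ∑ i, MvPolynomial.X i := by
    simp [Sg]
  rw [hSg]
  unfold Corner.P ferm Corner.P0
  rw [map_sub, map_mul, map_pow, MvPolynomial.map_C, map_sum]
  have h1 : MvPolynomial.map (algebraMap (RatFunc (RatFunc E)) (RatFunc (RatFunc (RatFunc E))))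
      (SigP n (RatFunc (RatFunc E))) = ∑ i, MvPolynomial.X i := by
    simp [SigP]
  have h2 : ∀ k, MvPolynomial.map
      (algebraMap (RatFunc (RatFunc E)) (RatFunc (RatFunc (RatFunc E))))
      (MvPolynomial.C (RatFunc.C (RatFunc.X : RatFunc E) ^ k) *
        MvPolynomial.map (Corner.cF2 E) (K.G k)) =
      MvPolynomial.C (Corner.tauF E ^ k) * MvPolynomial.map (Corner.cF E) (K.G k) := by
    intro k
    rw [map_mul, MvPolynomial.map_C, MvPolynomial.map_map, map_pow]
    rfl
  rw [h1, Finset.sum_congr rfl fun k _ => h2 k, sub_sub_eq_add_sub, sub_add_eq_add_sub]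
  rfl

end F_MPP

namespace Corner

theorem mpp_thm : MPPStmt := by
  intro X E _ _ A n K i
  refine ⟨F_MPP.map_P3 K, fun x => ?_, fun J a => ?_, ?_⟩
  · exact RingHom.congr_fun (F_MPP.phi_kB3 A i) x
  · unfold Corner.rho3 rhoE
    refine (RHB_proof.2.1 n (B3 E) (F3 E) (kB3 E) _ _ _ _ _ _ _).trans ?_
    rw [F_MPP.map_P3, MvPolynomial.map_monomial, map_one]
    have h1 : MvPolynomial.map (kB3 E) (K.EL3 (A.phi i) (X.p i)) =
        EE (X.p i) (A.ext.ext.ext.phi i) K.P := by
      unfold Corner.EL3 EE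
      rw [map_mul, map_sub, map_pow, MvPolynomial.map_C, F_MPP.map_P3, MvPolynomial.map_expand,
        MvPolynomial.map_map, ← F_MPP.phi_kB3 A i, ← MvPolynomial.map_map, F_MPP.map_P3,
        F_MPP.kB3_cB3, map_inv₀, map_natCast]
    have h2 : (fun j => kB3 E (cB3 E ((X.p i : E) ^ j / (j.factorial : E)))) =
        gam (RatFunc (RatFunc (RatFunc E))) (X.p i) := by
      funext j
      rw [F_MPP.kB3_cB3, gam, map_div₀, map_pow, map_natCast, map_natCast]
    rw [h1, h2]
  · rw [← F_MPP.j3_eq]
    exact F_MPP.j3_injective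

end Corner

end Pool.CUBE
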