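import Pool.Agent.H38.CUBE.JJStmts2

/-! MP_47888e_al, block JJ part 2, module RRPA: `p ^ n r_{l,t} (p X + e)` modulo `p ^ M`. -/

set_option autoImplicit false

open Polynomial

namespace Pool.CUBE

open Pool.CM Pool.H93.Cube

namespace Corner

theorem F_RRPA_affR_congr {E : Type} [Field E] {u v u2 v2 : E} (hu : u ≠ 0) (hu2 : u2 ≠ 0)
    (h1 : u = u2) (h2 : v = v2) (r : RatFunc E) : affR u v hu r = affR u2 v2 hu2 r := by
  subst h1
  subst h2
  rfl

theorem F_RRPA_const {E : Type} [Field E] [CharZero E] (L l : ℕ) (hL : 1 ≤ L) :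
    ((-1) ^ l * (((L + l - 1).factorial : RatFunc E) / (l.factorial : RatFunc E)) : RatFunc E) =
      RatFunc.C ((-1) ^ l * (((L + l - 1).descFactorial (L - 1) : ℕ) : E)) := by
  have h1 : (l.factorial : RatFunc E) ≠ 0 := by
    have h2 : (l.factorial : E) ≠ 0 := by exact_mod_cast l.factorial_ne_zero
    have h3 : (l.factorial : RatFunc E) = RatFunc.C (l.factorial : E) := by
      rw [map_natCast]
    rw [h3]
    exact (_root_.map_ne_zero _).2 h2
  have h2 : l.factorial * (L + l - 1).descFactorial (L - 1) = (L + l - 1).factorial := by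
    have := Nat.factorial_mul_descFactorial (n := L + l - 1) (k := L - 1) (by omega)
    have h3 : L + l - 1 - (L - 1) = l := by omega
    rwa [h3] at this
  rw [map_mul, map_pow, map_neg, map_one, map_natCast]
  congr 1
  rw [div_eq_iff h1, ← h2, Nat.cast_mul, mul_comm]

theorem rrpa_thm (h1 : PACStmt) (h2 : BPXStmt) (h3 : MPAStmt) (h4 : HINStmt) (h5 : RSCStmt) :
    RRPAStmt := by
  intro X E _ _ A hA n K C M
  obtain ⟨C', hC'⟩ : ∃ C' : ℕ, C' = 2 * K.D * C + C + 2 := ⟨_, rfl⟩
  refine ⟨C' * (1 + K.D), fun c hc => ?_⟩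
  refine ⟨0 + (C' + 1 + M) + ((C' + 1 + M) + n * ((2 * c + 1) * K.D + M)), ?_⟩
  have hbig := Idx.Ev.large (X := X) (C' + K.D * (n + 1) + 2 * n + 2)
  refine ((h4 X E A hA n K).and hbig).mono fun i hi a l t e h hD hlv hl ht he => ?_
  obtain ⟨hin, hp⟩ := hi
  obtain ⟨hadd, hmul, hmono, hpoly, hcst, -, hsum, hprod, -, -⟩ := h1 X E A hA i M
  have hCp : C' < X.p i := by omega
  have hDpos := K.hD
  -- the level
  have hlv' : a.degree + (n + 1) = K.D * K.lv a := by
    unfold Corner.lv
    exact (Nat.mul_div_cancel' hD).symm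
  obtain ⟨L, hL⟩ : ∃ L : ℕ, L = K.lv a := ⟨_, rfl⟩
  rw [← hL] at hlv hlv' ⊢
  have hL1 : 1 ≤ L := by
    rcases Nat.eq_zero_or_pos L with h0 | h0
    · rw [h0, mul_zero] at hlv'
      omega
    · exact h0
  have hdeg : a.degree + (n + 1) ≤ K.D * (n + 1) := by
    rw [hlv']
    exact Nat.mul_le_mul_left _ hlv
  -- the shift
  obtain ⟨f, hf⟩ : ∃ f : ℤ, f = (e : ℤ) + 1 - L - l := ⟨_, rfl⟩
  have hCpp : C * X.p i + 2 * X.p i ≤ C' * X.p i := by
    rw [hC', add_mul, add_mul]
    have : 0 ≤ 2 * K.D * C * X.p i := Nat.zero_le _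
    omega
  have hfabs : |f| ≤ ((C' * X.p i : ℕ) : ℤ) := by
    have e1 : ((C' * X.p i : ℕ) : ℤ) ≥ ((C * X.p i + 2 * X.p i : ℕ) : ℤ) := by exact_mod_cast hCpp
    have e2 : (l : ℤ) ≤ ((C * X.p i : ℕ) : ℤ) := by exact_mod_cast hl
    push_cast at e1 e2 ⊢
    rw [abs_le]
    constructor
    · rw [hf]
      have e3 : (L : ℤ) ≤ n + 1 := by exact_mod_cast hlv
      have e4 : (n : ℤ) + 1 ≤ X.p i := by
        have : n + 1 ≤ X.p i := by omega
        exact_mod_cast this
      have e5 : (0 : ℤ) ≤ X.p i := by positivity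
      linarith [(Nat.cast_nonneg e : (0 : ℤ) ≤ (e : ℤ))]
    · rw [hf]
      have e3 : (e : ℤ) < X.p i := by exact_mod_cast he
      have e4 : (0 : ℤ) ≤ (C : ℤ) * X.p i := by positivity
      have e6 : (1 : ℤ) ≤ L := by exact_mod_cast hL1
      have e7 : (0 : ℤ) ≤ (l : ℤ) := by positivity
      have e8 : (0 : ℤ) ≤ X.p i := by positivity
      linarith
  -- one term of the sum
  have hterm : ∀ j ∈ Finset.range (t + 1), PA A i M ((C' + 1 + M) + n * ((2 * c + 1) * K.D + M))
      (affR (X.p i : E) (f : E) h (binR E j) *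
        (algebraMap E[X] (RatFunc E) (qq E c K.D) ^ n * ((X.p i : RatFunc E) ^ n *
          affR (X.p i : E) (f : E) h (Mell K.μ
            (zc (MvPolynomial.monomial a 1 * fer n K.D E ^ l) * (K.w ^ j).coeff t))))) := by
    intro j hj
    have hjt : j ≤ t := by
      have := Finset.mem_range.1 hj
      omega
    refine hmul _ _ _ _ ?_ ?_
    · refine h2 X E A hA i C' M hCp f j h ?_
      omega
    · refine h3 X E A hA i n C' K.D M c hCp hc K.μ K.hμ.le f h hfabs _
        (fun γ => (hin a l j t γ).1) fun γ hγ => ?_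
      have e1 := (hin a l j t γ).2 hγ
      have e2 : K.D * l ≤ K.D * (C * X.p i) := Nat.mul_le_mul_left _ hl
      have e3 : K.D * j ≤ K.D * (C * X.p i) := Nat.mul_le_mul_left _ (hjt.trans ht)
      have e4 : C' * X.p i = K.D * (C * X.p i) + K.D * (C * X.p i) + C * X.p i + 2 * X.p i := by
        rw [hC']
        ring
      have e5 : 0 ≤ C * X.p i := Nat.zero_le _
      omega
  have hS := hsum _ _ (Finset.range (t + 1)) _ hterm
  have hb : PA A i M (C' + 1 + M) (affR (X.p i : E) (e : E) h (binR E (L + l - 1))) := by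
    have := h2 X E A hA i C' M hCp (e : ℤ) (L + l - 1) h (by omega)
    rwa [Int.cast_natCast] at this
  have hc0 : PA A i M 0 (RatFunc.C ((-1) ^ l * (((L + l - 1).descFactorial (L - 1) : ℕ) : E))) :=
    hcst _ ((A.O i).mul_mem ((A.O i).pow_mem ((A.O i).neg_mem (A.O i).one_mem) _)
      (natCast_mem _ _))
  have hfin := hmul _ _ _ _ (hmul _ _ _ _ hc0 hb) hS
  have heq : algebraMap E[X] (RatFunc E) (qq E c K.D) ^ n *
      ((X.p i : RatFunc E) ^ n * affR (X.p i : E) (e : E) h
        (K.rr L (MvPolynomial.monomial a 1) l t)) =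
      RatFunc.C ((-1) ^ l * (((L + l - 1).descFactorial (L - 1) : ℕ) : E)) *
        affR (X.p i : E) (e : E) h (binR E (L + l - 1)) *
      ∑ j ∈ Finset.range (t + 1), (affR (X.p i : E) (f : E) h (binR E j) *
        (algebraMap E[X] (RatFunc E) (qq E c K.D) ^ n * ((X.p i : RatFunc E) ^ n *
          affR (X.p i : E) (f : E) h (Mell K.μ
            (zc (MvPolynomial.monomial a 1 * fer n K.D E ^ l) * (K.w ^ j).coeff t))))) := by
    have hu : (1 : E) * (X.p i : E) ≠ 0 := by rwa [one_mul]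
    have hcomp : ∀ r : RatFunc E, affR (X.p i : E) (e : E) h
        (affR 1 (1 - (L : E) - (l : E)) one_ne_zero r) = affR (X.p i : E) (f : E) h r := by
      intro r
      rw [(h5 E).2.2.2.2.2.2.2 1 (1 - (L : E) - (l : E)) (X.p i : E) (e : E) one_ne_zero h hu r]
      refine F_RRPA_affR_congr hu h (one_mul _) ?_ r
      rw [hf]
      push_cast
      ring
    have hcc : ∀ x : E, affR (X.p i : E) (e : E) h (RatFunc.C x) = RatFunc.C x := by
      intro x
      have := RatFunc.algebraMap_C x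
      rw [← this]
      unfold affR
      rw [RatFunc.coe_mapRingHom_eq_coe_map]
      have h6 := RatFunc.map_apply_div (affP (X.p i : E) (e : E)) (affP_le (X.p i : E) (e : E) h)
        (Polynomial.C x) 1
      simpa [affP] using h6
    unfold Corner.rr
    rw [F_RRPA_const L l hL1, map_mul, map_mul, hcc, hcomp, map_sum, Finset.mul_sum,
      Finset.mul_sum, Finset.mul_sum, Finset.mul_sum]
    refine Finset.sum_congr rfl fun j _ => ?_
    rw [RingHom.map_mul (affR (X.p i : E) (f : E) h)]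
    ring
  rw [heq]
  exact hfin

end Corner

end Pool.CUBE
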